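import Pool.Agent.helper82.OG.Spec
import Pool.Agent.helper29.OC.PIAP

/-!
# Project og (MP_ebc808_nt), module UNI
-/

set_option autoImplicit false

open Finset

noncomputable section

namespace Pool.Agent.OG

open Pool.Agent.EP

/-- The inequality behind UNI. -/
theorem UNI_num (a b S q k s w : ℝ) (hk : 1 ≤ k) (hs : 1 ≤ s) (hw : 24 ≤ w) (hws : 20 * w ≤ s)
    (ha : k ^ 2 / w ≤ a) (hb : s ^ 2 / w ≤ b) (hq : q ≤ k * (s ^ 2 / w ^ 16))
    (h : a * b ≤ S * b + a * ((3 * s) * (2 * (s / w ^ 4))) + (k + 1) * q + a * (5 * s)) :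
    k ^ 2 / w ^ 4 ≤ S := by
  have hw0 : 0 < w := by linarith
  have hs0 : 0 < s := by linarith
  have hk0 : 0 < k := by linarith
  have ha0 : 0 < a := lt_of_lt_of_le (by positivity) ha
  have hb0 : 0 < b := lt_of_lt_of_le (by positivity) hb
  have t2 : (3 * s) * (2 * (s / w ^ 4)) ≤ b / 4 := by
    have e : (3 * s) * (2 * (s / w ^ 4)) = (s ^ 2 / w) * (6 / w ^ 3) := by
      field_simp
      ring
    have h1 : 6 / w ^ 3 ≤ 1 / 4 := by
      rw [div_le_div_iff₀ (by positivity) (by norm_num)]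
      have : (24 : ℝ) ^ 3 ≤ w ^ 3 := pow_le_pow_left₀ (by norm_num) hw 3
      linarith
    rw [e]
    calc (s ^ 2 / w) * (6 / w ^ 3) ≤ b * (1 / 4) :=
          mul_le_mul hb h1 (by positivity) hb0.le
      _ = b / 4 := by ring
  have t4 : 5 * s ≤ b / 4 := by
    have e : 20 * s ≤ s ^ 2 / w := by
      rw [le_div_iff₀ hw0]
      nlinarith
    linarith
  have t3 : (k + 1) * q ≤ a * b / 4 := by
    have e1 : (k + 1) * q ≤ 2 * k * (k * (s ^ 2 / w ^ 16)) := by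
      have h0 : 0 ≤ k * (s ^ 2 / w ^ 16) := by positivity
      calc (k + 1) * q ≤ (k + 1) * (k * (s ^ 2 / w ^ 16)) :=
            mul_le_mul_of_nonneg_left hq (by linarith)
        _ ≤ 2 * k * (k * (s ^ 2 / w ^ 16)) := mul_le_mul_of_nonneg_right (by linarith) h0
    have e2 : 2 * k * (k * (s ^ 2 / w ^ 16)) = (k ^ 2 / w) * (s ^ 2 / w) * (2 / w ^ 14) := by
      field_simp
    have h1 : 2 / w ^ 14 ≤ 1 / 4 := by
      rw [div_le_div_iff₀ (by positivity) (by norm_num)]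
      have : (24 : ℝ) ^ 14 ≤ w ^ 14 := pow_le_pow_left₀ (by norm_num) hw 14
      linarith
    have h2 : (k ^ 2 / w) * (s ^ 2 / w) ≤ a * b := mul_le_mul ha hb (by positivity) ha0.le
    calc (k + 1) * q ≤ (k ^ 2 / w) * (s ^ 2 / w) * (2 / w ^ 14) := by rw [← e2]; exact e1
      _ ≤ a * b * (1 / 4) := mul_le_mul h2 h1 (by positivity) (by positivity)
      _ = a * b / 4 := by ring
  have m2 := mul_le_mul_of_nonneg_left t2 ha0.le
  have m4 := mul_le_mul_of_nonneg_left t4 ha0.le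
  have hSb : a / 4 * b ≤ S * b := by nlinarith
  have hS : a / 4 ≤ S := le_of_mul_le_mul_right hSb hb0
  have e5 : k ^ 2 / w ^ 4 ≤ (k ^ 2 / w) / 4 := by
    have e6 : k ^ 2 / w ^ 4 = (k ^ 2 / w) * (1 / w ^ 3) := by field_simp
    have h1 : 1 / w ^ 3 ≤ 1 / 4 := by
      rw [div_le_div_iff₀ (by positivity) (by norm_num)]
      have : (24 : ℝ) ^ 3 ≤ w ^ 3 := pow_le_pow_left₀ (by norm_num) hw 3
      linarith
    rw [e6]
    calc (k ^ 2 / w) * (1 / w ^ 3) ≤ (k ^ 2 / w) * (1 / 4) :=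
          mul_le_mul_of_nonneg_left h1 (by positivity)
      _ = (k ^ 2 / w) / 4 := by ring
  linarith

theorem UNI (hUNC : UNC_stmt) : UNI_stmt := by
  classical
  intro δ hδ hδ1
  obtain ⟨c, x₀, hc, hx⟩ := Pool.Agent.helper7.OC.primes_ap 24 5 (by norm_num) (by norm_num)
  have hδ4 : 0 < δ / 4 := by linarith
  have e1 : ∀ᶠ z : ℝ in Filter.atTop, ‖Real.log z‖ ≤ c * ‖z ^ (δ / 4)‖ :=
    (isLittleO_log_rpow_atTop hδ4).bound hc
  have e2 : ∀ᶠ z : ℝ in Filter.atTop, 24 ≤ z ^ (δ / 4) :=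
    (tendsto_rpow_atTop hδ4).eventually_ge_atTop 24
  have e3 : ∀ᶠ z : ℝ in Filter.atTop, (x₀ : ℝ) + 2 ≤ z ^ (1 / 10 : ℝ) :=
    (tendsto_rpow_atTop (by norm_num)).eventually_ge_atTop _
  have e4 : ∀ᶠ z : ℝ in Filter.atTop, 20 ≤ z ^ (1 / 4 : ℝ) :=
    (tendsto_rpow_atTop (by norm_num)).eventually_ge_atTop _
  have e5 : ∀ᶠ z : ℝ in Filter.atTop, 1 ≤ z := Filter.eventually_ge_atTop 1
  obtain ⟨Z₀, hZ₀⟩ := Filter.eventually_atTop.1
    ((tendsto_natCast_atTop_atTop (R := ℝ)).eventually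
      (e1.and (e2.and (e3.and (e4.and e5)))))
  refine ⟨Z₀, fun Z K hZ hKl hKu hPQ => ?_⟩
  obtain ⟨f1, f2, f3, f4, f5⟩ := hZ₀ Z hZ
  set z : ℝ := (Z : ℝ) with hz
  have hz0 : 0 < z := by linarith
  set w : ℝ := z ^ (δ / 4) with hw
  set s : ℝ := Real.sqrt z with hs
  have hw0 : 0 < w := by linarith
  have hs1 : 1 ≤ s := Real.one_le_sqrt.2 f5
  have hs2 : s ^ 2 = z := Real.sq_sqrt hz0.le
  -- relations between powers
  have r1 : z ^ (1 / 2 - δ) = s / w ^ 4 := by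
    rw [Real.rpow_sub hz0, ← Real.sqrt_eq_rpow, hw, ← Real.rpow_natCast, ← Real.rpow_mul hz0.le]
    congr 2
    push_cast
    ring
  have r2 : z ^ (1 - 4 * δ) = s ^ 2 / w ^ 16 := by
    rw [Real.rpow_sub hz0, Real.rpow_one, hs2, hw, ← Real.rpow_natCast, ← Real.rpow_mul hz0.le]
    congr 2
    push_cast
    ring
  have r3 : z ^ (-δ) = 1 / w ^ 4 := by
    rw [Real.rpow_neg hz0.le, hw, ← Real.rpow_natCast, ← Real.rpow_mul hz0.le, one_div]
    congr 2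
    push_cast
    ring
  have hws : 20 * w ≤ s := by
    have h1 : w ≤ z ^ (1 / 4 : ℝ) := Real.rpow_le_rpow_of_exponent_le f5 (by linarith)
    have h2 : s = z ^ (1 / 4 : ℝ) * z ^ (1 / 4 : ℝ) := by
      rw [← Real.rpow_add hz0, hs, Real.sqrt_eq_rpow]
      norm_num
    rw [h2]
    exact mul_le_mul f4 h1 hw0.le (by linarith)
  -- sizes of K
  have hKR : (x₀ : ℝ) + 2 ≤ K := f3.trans hKl
  have hKx : x₀ ≤ K := by
    have : (x₀ : ℝ) ≤ K := by linarith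
    exact_mod_cast this
  have hK2 : (2 : ℝ) ≤ K := by
    have : (0 : ℝ) ≤ x₀ := Nat.cast_nonneg _
    linarith
  have hKz : (K : ℝ) ≤ z := by rw [hz]; exact_mod_cast hKu
  have hZx : x₀ ≤ Z := hKx.trans hKu
  have hlog : Real.log z ≤ c * w := by
    have h1 := f1
    rw [Real.norm_of_nonneg hw0.le] at h1
    exact (le_abs_self _).trans h1
  have hcount : ∀ x : ℕ, x₀ ≤ x → (2 : ℝ) ≤ x → (x : ℝ) ≤ z → (x : ℝ) / w ≤ (#(P5 x) : ℝ) := by
    intro x hx0 hx2 hxz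
    refine le_trans ?_ (hx x hx0)
    have hl0 : 0 < Real.log x := Real.log_pos (by linarith)
    have hl1 : Real.log x ≤ Real.log z := Real.log_le_log (by linarith) hxz
    rw [div_le_div_iff₀ hw0 hl0]
    have h2 : (x : ℝ) * Real.log x ≤ x * (c * w) :=
      mul_le_mul_of_nonneg_left (hl1.trans hlog) (by linarith)
    linarith
  have ha := hcount K hKx hK2 hKz
  have hb := hcount Z hZx (hK2.trans hKz) le_rfl
  set t : ℕ := ⌈z ^ (1 / 2 - δ)⌉₊ with ht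
  have hsw : 1 ≤ s / w ^ 4 := by
    rw [← r1]
    exact Real.one_le_rpow f5 (by linarith)
  have ht2 : (t : ℝ) ≤ 2 * (s / w ^ 4) := by
    have h1 := (Nat.ceil_lt_add_one (le_trans zero_le_one (by rw [r1]; exact hsw) :
      0 ≤ z ^ (1 / 2 - δ))).le
    rw [← ht] at h1
    rw [r1] at h1
    linarith
  set Sset : Finset ℕ := {p ∈ P5 K | t ≤ #(TT (7 * p) (2 * Z))} with hSset
  have hU := hUNC K Z t
  have hUR : ((#(P5 K) : ℕ) : ℝ) * #(P5 Z) ≤ #Sset * #(P5 Z) +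
      #(P5 K) * (((Nat.sqrt (2 * Z) : ℕ) + 1) * t) +
      ((Nat.sqrt K : ℕ) + 1) * #(PQ (14 * K) (2 * Z)) +
      #(P5 K) * ((Nat.sqrt (2 * Z + 14 * K) : ℕ) + 1) := by
    exact_mod_cast hU
  have q1 : ((Nat.sqrt (2 * Z) : ℕ) : ℝ) + 1 ≤ 3 * s := by
    have h1 : ((Nat.sqrt (2 * Z) : ℕ) : ℝ) ≤ Real.sqrt ((2 * Z : ℕ) : ℝ) := Real.nat_sqrt_le_real_sqrt
    have h2 : Real.sqrt ((2 * Z : ℕ) : ℝ) ≤ 2 * s := by
      rw [Real.sqrt_le_left (by linarith), mul_pow, hs2]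
      push_cast
      linarith
    linarith
  have q2 : ((Nat.sqrt (2 * Z + 14 * K) : ℕ) : ℝ) + 1 ≤ 5 * s := by
    have h1 : ((Nat.sqrt (2 * Z + 14 * K) : ℕ) : ℝ) ≤ Real.sqrt ((2 * Z + 14 * K : ℕ) : ℝ) :=
      Real.nat_sqrt_le_real_sqrt
    have h2 : Real.sqrt ((2 * Z + 14 * K : ℕ) : ℝ) ≤ 4 * s := by
      rw [Real.sqrt_le_left (by linarith), mul_pow, hs2]
      push_cast
      linarith
    linarith
  have q3 : ((Nat.sqrt K : ℕ) : ℝ) ≤ Real.sqrt K := Real.nat_sqrt_le_real_sqrt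
  have hk1 : 1 ≤ Real.sqrt K := Real.one_le_sqrt.2 (by linarith)
  have hk2 : Real.sqrt K ^ 2 = K := Real.sq_sqrt (by linarith)
  have haK : (0 : ℝ) ≤ #(P5 K) := Nat.cast_nonneg _
  have hPQ0 : (0 : ℝ) ≤ #(PQ (14 * K) (2 * Z)) := Nat.cast_nonneg _
  have ht0 : (0 : ℝ) ≤ t := Nat.cast_nonneg _
  have hmain : (K : ℝ) / w ^ 4 ≤ #Sset := by
    have key := UNI_num (#(P5 K) : ℝ) (#(P5 Z) : ℝ) (#Sset : ℝ) (#(PQ (14 * K) (2 * Z)) : ℝ)
      (Real.sqrt K) s w hk1 hs1 f2 hws (by rw [hk2]; exact ha) (by rw [hs2]; exact hb)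
      (by rw [← r2]; exact hPQ) (by
        refine hUR.trans ?_
        have p1 : (((Nat.sqrt (2 * Z) : ℕ) : ℝ) + 1) * t ≤ (3 * s) * (2 * (s / w ^ 4)) :=
          mul_le_mul q1 ht2 ht0 (by linarith)
        have p2 := mul_le_mul_of_nonneg_left p1 haK
        have p3 := mul_le_mul_of_nonneg_left q2 haK
        have p4 : (((Nat.sqrt K : ℕ) : ℝ) + 1) * #(PQ (14 * K) (2 * Z)) ≤
            (Real.sqrt K + 1) * #(PQ (14 * K) (2 * Z)) :=
          mul_le_mul_of_nonneg_right (by linarith) hPQ0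
        linarith)
    rw [hk2] at key
    exact key
  refine ⟨Sset.image (fun p => 7 * p), ?_, ?_⟩
  · intro r hr
    obtain ⟨p, hp, rfl⟩ := mem_image.1 hr
    rw [hSset, mem_filter] at hp
    obtain ⟨hp1, hp2⟩ := hp
    unfold P5 at hp1
    rw [mem_filter, mem_Ioc] at hp1
    obtain ⟨⟨hp3, hp4⟩, hp5, hp6⟩ := hp1
    refine ⟨by omega, by omega, ?_, ?_⟩
    · have h6 : (7 * p) % 6 = 5 := by omega
      rw [Nat.Coprime, Nat.gcd_comm, Nat.gcd_rec, h6]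
      norm_num
    · have h1 : z ^ (1 / 2 - δ) ≤ t := Nat.le_ceil _
      exact h1.trans (by exact_mod_cast hp2)
  · rw [card_image_of_injective _ (fun a b h => by simpa using h)]
    rw [r3, mul_one_div]
    exact hmain

end Pool.Agent.OG
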